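import Pool.Agent.MP_6a4325_al.H84.Spec3

/-! Row BND: the degrees of the irreducible representations are bounded. -/

set_option autoImplicit false

namespace Pool.Agent.MP_6a4325_al.H93

open Pool.Agent.MP_6a4325_al.H62 Pool.Agent.MP_6a4325_al.H84

theorem cnt : SJH → SSum → SHomX → SReg → SFix → SCnt := by
  intro hJ hS hX hR hF k L _ _ _ E D hE m t ht hT
  obtain ⟨s, hs, hs'⟩ := hJ k L {u | u ≤ D}
  choose r hr hr' using fun i : Fin m => hJ k L {u | t i ≤ u * D ∧ u ≤ t i * D}
  have hlt : ∀ i j : Fin m, i < j →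
      Disjoint {u | t i ≤ u * D ∧ u ≤ t i * D} {u | t j ≤ u * D ∧ u ≤ t j * D} := by
    intro i j hij
    refine Set.disjoint_left.2 fun u h1 h2 => ?_
    have h3 := ht i j hij
    have h4 : u * D ≤ t i * D * D := Nat.mul_le_mul_right D h1.2
    have h5 : t i * D * D = D ^ 2 * t i := by ring
    have h6 := h2.1
    omega
  have hsum := hS k L m _ r (fun i j hij => by
    rcases lt_or_gt_of_ne hij with h | h
    · exact hlt i j h
    · exact (hlt j i h).symm) hr hr' (L → k) (reg k L) inferInstance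
  have hone : ∀ i, s (L → k) (reg k L) ≤ D ^ 2 * r i (L → k) (reg k L) := by
    intro i
    obtain ⟨T, _, _, τ, hfd, hirr, he⟩ := hT i
    have h1 := hX k L T τ D s (r i) hfd hirr hs hs' (hr i) (by rw [he]; exact hr' i) (L → k)
      (reg k L) inferInstance
    rw [hR k L T τ (r i) hfd (hr i), mul_left_comm] at h1
    have := hirr.1
    exact Nat.le_of_mul_le_mul_left h1 Module.finrank_pos
  have hfix := hF k L E D s hE hs hs'
  have hdim : Module.finrank k (L → k) = Nat.card L := by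
    have := Fintype.ofFinite L
    rw [Module.finrank_fintype_fun_eq_card, Nat.card_eq_fintype_card]
  have hpos : 0 < s (L → k) (reg k L) := by
    rcases Nat.eq_zero_or_pos (s (L → k) (reg k L)) with h | h
    · rw [h, mul_zero] at hfix
      exact absurd hfix (not_le.2 Nat.card_pos)
    · exact h
  have h1 : m * s (L → k) (reg k L) ≤ D ^ 2 * ∑ i, r i (L → k) (reg k L) := by
    rw [Finset.mul_sum]
    simpa using Finset.sum_le_sum fun i (_ : i ∈ Finset.univ) => hone i
  have h2 : D ^ 2 * ∑ i, r i (L → k) (reg k L) ≤ D ^ 2 * Nat.card E * s (L → k) (reg k L) := by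
    rw [mul_assoc]
    exact Nat.mul_le_mul_left _ (hsum.trans (hdim ▸ hfix))
  exact Nat.le_of_mul_le_mul_right (h1.trans h2) hpos

/-- a sequence that grows fast inside an unbounded set -/
theorem exists_seq (P : ℕ → Prop) (hP : ∀ c, ∃ d, c < d ∧ P d) (a : ℕ) :
    ∃ t : ℕ → ℕ, (∀ i, P (t i)) ∧ ∀ i j, i < j → a * t i < t j := by
  choose f hf hf' using hP
  let t : ℕ → ℕ := fun n => Nat.rec (f 0) (fun _ x => f (a * x + x)) n
  have h1 : ∀ i, a * t i + t i < t (i + 1) := fun i => hf _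
  have h2 : Monotone t := monotone_nat_of_le_succ fun i => by have := h1 i; omega
  refine ⟨t, fun i => ?_, fun i j hij => ?_⟩
  · cases i
    · exact hf' _
    · exact hf' _
  · have h3 := h2 (Nat.succ_le_of_lt hij)
    have h4 := h1 i
    simp only [Nat.succ_eq_add_one] at h3
    omega

theorem bnd : VsApi → SUp → SStab → SFx → SCnt → SBnd := by
  intro hV hU hSt hFx hC p _ G _ hLF hW
  have hLP := hV.lfLp G hLF
  obtain ⟨H, -, D, hH, -, -, hFb, -⟩ := hFx p G hLP hW
  by_contra hno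
  let P : ℕ → Prop := fun d => ∃ H' : Subgroup G, H'.FG ∧ ∃ (M : Type) (_ : AddCommGroup M)
    (_ : Module (Kp p) M) (ρ : Representation (Kp p) H' M), Irr ρ ∧
    FiniteDimensional (Kp p) M ∧ Stab H' ρ ∧ Module.finrank (Kp p) M = d
  have hP : ∀ c, ∃ d, c < d ∧ P d := by
    intro c
    by_contra hc
    refine hno ⟨c, fun L hL T _ _ σ hσ => ?_⟩
    obtain ⟨H', M, _, _, ρ, h1, h2, h3, h4, h5⟩ := hSt p G hLP hW L hL T σ hσ
    by_contra hlt
    exact hc ⟨_, lt_of_lt_of_le (not_le.1 hlt) h4, H', h1, M, _, _, ρ, h2, h3, h5, rfl⟩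
  obtain ⟨t, ht, ht'⟩ := exists_seq P hP (D ^ 2)
  choose H' hH' hM using ht
  let m := D ^ 2 * Nat.card H + 1
  let L : Subgroup G := H ⊔ ⨆ i : Fin m, H' i
  have hL : L.FG := hH.sup (Subgroup.FG.iSup _ fun i => hH' i)
  have : Finite L := hLF L hL
  have hle : H ≤ L := le_sup_left
  have h1 := hC (Kp p) L (H.subgroupOf L) D (hFb L hle hL) m (fun i => t i)
    (fun i j hij => ht' i j hij) fun i => by
      have hi : H' i ≤ L := le_sup_of_le_right (le_iSup (fun i : Fin m => H' i) i)
      obtain ⟨M, _, _, ρ, h2, h3, h4, h5⟩ := hM i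
      obtain ⟨U, _, _, σ, φ, h6, h7, h8, -⟩ := hU (Kp p) (H' i) L M (Subgroup.inclusion hi)
        (Subgroup.inclusion_injective hi) ρ h2
      have h9 : φ ≠ 0 := by
        rintro rfl
        have := h2.1
        obtain ⟨x, y, hxy⟩ := exists_pair_ne M
        exact hxy (h7 rfl)
      have e := LinearEquiv.ofBijective φ ⟨h7, h4 L hi hL U σ φ h6 h9 h8⟩
      exact ⟨U, _, _, σ, e.finiteDimensional, h6, e.finrank_eq.symm.trans h5⟩
  rw [Nat.card_congr (Subgroup.subgroupOfEquivOfLe hle).toEquiv] at h1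
  exact absurd h1 (not_le.2 (Nat.lt_succ_self _))

end Pool.Agent.MP_6a4325_al.H93
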